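import Pool.Agent.MP_c6eade_gt.H41.F1
import Pool.Agent.MP_c6eade_gt.H41.F3
import Pool.Agent.MP_c6eade_gt.H41.G3b

namespace Pool.Agent.Results.MP_c6eade_gt.Disproof

open Pool.Agent.MP_c6eade_gt Filter Topology

/-- A countable group, a normal chain and a matrix over the rational group algebra for which the von
Neumann dimensions of the kernels over the quotients do not converge to the dimension of the
kernel over the group: they stay below `1/4`, while the dimension over the group is at least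
`3/4`. -/
theorem result : ∃ (G : Type) (_ : Group G) (N : ℕ → Subgroup G) (_ : ∀ i, (N i).Normal),
    Countable G ∧ N 0 = ⊤ ∧ Antitone N ∧ ⨅ i, N i = ⊥ ∧
    ∃ (r s : ℕ) (A : Matrix (Fin r) (Fin s) (MonoidAlgebra ℚ G)),
      (∀ i, 1 ≤ i → vnDim (kerRight
        ((A.map (MonoidAlgebra.mapDomain (QuotientGroup.mk' (N i)))).map
          (MonoidAlgebra.mapRingHom (G ⧸ N i) (algebraMap ℚ ℂ)))) ≤ 1 / 4) ∧
      3 / 4 ≤ vnDim (kerRight (A.map (MonoidAlgebra.mapRingHom G (algebraMap ℚ ℂ)))) ∧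
      ¬ Tendsto (fun i => vnDim (kerRight
        ((A.map (MonoidAlgebra.mapDomain (QuotientGroup.mk' (N i)))).map
          (MonoidAlgebra.mapRingHom (G ⧸ N i) (algebraMap ℚ ℂ)))))
        atTop (𝓝 (vnDim (kerRight (A.map (MonoidAlgebra.mapRingHom G (algebraMap ℚ ℂ)))))) := by
  obtain ⟨Γ⟩ := H41.gad_exists
  obtain ⟨P, B0, hP⟩ := H41.stages Γ
  obtain ⟨G, hG, N, hN, hc, h0, h1, h2, x, h3, h4⟩ := H41.chain_cnt P Γ B0 hP
  refine ⟨G, hG, N, hN, hc, h0, h1, h2, 1, 1, Matrix.of fun _ _ => x, h3, h4, fun h => ?_⟩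
  have h5 := le_of_tendsto h (eventually_atTop.2 ⟨1, h3⟩)
  have h6 : (3 / 4 : ℝ) ≤ 1 / 4 := le_trans h4 h5
  norm_num at h6

end Pool.Agent.Results.MP_c6eade_gt.Disproof
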