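import Pool.Agent.MP_c6eade_gt.H6.D

namespace Pool.Agent.Results.MP_c6eade_gt.FiniteEdge

open Pool.Agent.MP_c6eade_gt Filter Topology

universe u w

/-- Approximation of von Neumann dimensions of kernels along a normal chain passes from the
vertex stabilisers of an action on a tree with finite edge stabilisers to the acting group. -/
theorem result {G : Type u} [Group G] {V : Type w} [MulAction G V] {T : SimpleGraph V}
    (hT : T.IsTree) (hadj : ∀ (g : G) (a b : V), T.Adj a b → T.Adj (g • a) (g • b))
    (hfin : ∀ a b : V, T.Adj a b → {g : G | g • a = a ∧ g • b = b}.Finite)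
    (N : ℕ → Subgroup G) [∀ i, (N i).Normal] (hanti : Antitone N) (hinf : ⨅ i, N i = ⊥)
    (hS : ∀ (v : V) (r s : ℕ)
      (B : Matrix (Fin r) (Fin s) (MonoidAlgebra ℂ (MulAction.stabilizer G v))),
      Tendsto (fun i => vnDim (kerRight (B.map (MonoidAlgebra.mapDomain
        (QuotientGroup.mk' ((N i).subgroupOf (MulAction.stabilizer G v)))))))
        atTop (𝓝 (vnDim (kerRight B))))
    {r s : ℕ} (A : Matrix (Fin r) (Fin s) (MonoidAlgebra ℂ G)) :
    Tendsto
      (fun i => vnDim (kerRight (A.map (MonoidAlgebra.mapDomain (QuotientGroup.mk' (N i))))))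
      atTop (𝓝 (vnDim (kerRight A))) :=
  H6.approx_tree hT hadj hfin N hanti hinf hS A

end Pool.Agent.Results.MP_c6eade_gt.FiniteEdge
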