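import Pool.Agent.MP_c6eade_gt.Mg.Main

namespace Pool.Agent.Results.MP_c6eade_gt.TreeAmenable

open Pool.Agent.MP_c6eade_gt Filter Topology

universe u

/-- Approximation of von Neumann dimensions of kernels along a normal chain with arbitrary
quotients, when some term of the chain meets the kernel of a map to a group of the class in a
subgroup acting freely on a `G`-tree. -/
theorem result {G D : Type u} [Group G] [Group D] (hD : InClass D) (φ : G →* D)
    (N : ℕ → Subgroup G) [∀ i, (N i).Normal] (hanti : Antitone N) (hinf : ⨅ i, N i = ⊥)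
    (i₀ : ℕ) (hfree : FreeOnTree (N i₀ ⊓ φ.ker))
    {r s : ℕ} (A : Matrix (Fin r) (Fin s) (MonoidAlgebra ℂ G)) :
    Tendsto
      (fun i => vnDim (kerRight (A.map (MonoidAlgebra.mapDomain (QuotientGroup.mk' (N i))))))
      atTop (𝓝 (vnDim (kerRight A))) :=
  approx hD φ N hanti hinf i₀ hfree A

end Pool.Agent.Results.MP_c6eade_gt.TreeAmenable
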